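import Pool.Agent.Helper78.MEI.FGM
import Pool.Agent.Helper78.MEI.FaceY

/-!
# Project MEI (M2): the face theorems of helper78 with weakened node loads

Every face theorem holds with ANY numbers `R k ≤ RM .. k` instead of `R = RM ..` (a load may be
weakened); `H` is then the plane of these `R`.  The proofs are helper78's, only the node loads are
replaced by `load_low`.
-/

namespace Helper46.MEI

open Set Metric MeasureTheory Helper80.CW Helper82.CW Helper14.CW Helper93.MEI Helper82.M2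
open Helper14.MEI2 Pool.Agent.Helper52.MEI Pool.Agent.Helper73.MEI Helper37.MEI Helper41.MEI
open Helper33.MEI (Wi Dl tx M3)
open Pool.Agent.Helper55.Sx (Sim mm mm_pos mm_cont mt_mm deg1 int_Dl)
open Pool.Agent.Helper55.Mass (LN LN_nonneg vv vv_nonneg vv_le B0 intOn)
open Pool.Agent.Helper55.Apex (nc vt_vv)
open Pool.Agent.Helper55.ApexP (PN alP alP_nonneg alP_zeta alP_meas alP_bound xx_mu alP_int mu_bal)
open Pool.Agent.Helper55.Fill (xx rr xe wc xe_bal rr_nonneg xx_meas rr_meas xx_nonneg xx_le rr_int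
  rr_mass)
open Pool.Agent.Helper73.MEI.SideP (flP flP_meas flP_nonneg flP_zero flP_pair)
open Pool.Agent.Helper96.Kap (kap kap_nonneg kap_meas kap_le_one kap_add kapL kap_mass)
open Pool.Agent.Helper31.SR
open Helper78.MEI
open Helper75.MEI2 (mu vt)
open scoped RealInnerProductSpace ENNReal

/-- a load may be weakened -/
theorem load_low {a : Fin 4 → E3} {q : E3} {L L' m : ℝ} {M : Fin 3 → ℝ} (h : L' ≤ L)
    (hL : Load a q L m M) : Load a q L' m M := by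
  unfold Load at *
  linarith

variable {a : Fin 4 → E3} {σ : Measure (E3 × E3)} {K : Set E3} {S : Fin 4 → ℝ}
  {c : Fin 4 → E3} {z : Fin 4 → Fin 4 → E3}

/-- `face_instM` with weakened node loads -/
theorem face_instMR [IsFiniteMeasure σ] (h : CN K σ a c) (v : Viol K a S) (hz : CV a K z)
    (τ : Equiv.Perm (Fin 4)) {A : ℝ} (hA : 7 / 2 ≤ A)
    {l : Fin 3 → Bool → Bool → E3 × E3 → ℝ} (hl : Lok a l)
    {δ dE dm : Fin 3 → ℝ} (hδ : ∀ p, MA σ a l τ p p ≤ δ p) (hdE : ∀ p, 0 ≤ dE p)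
    (hdm : ∀ p, 0 ≤ dm p) (hdd : ∀ p, δ p ^ 2 ≤ dE p * dm p)
    {ρ β : Fin 3 → ℝ} (hρ : ∀ p, 0 < ρ p)
    (hMρ : ∀ p k, k ≠ p → MA σ a l τ p k ≤ ρ p)
    {x : E3} (hx : x ∈ K)
    {N : Fin 3 → Fin 3 → ℝ} (hNd : N = NM (fun i => a (τ i)) (fun i j => z (τ i) (τ j)))
    {R : Fin 3 → ℝ} (hRd : ∀ k, R k ≤ RM (fun i => a (τ i)) (fun i j => z (τ i) (τ j)) k)
    {ζ ζp : Fin 3 → ℝ} (hζp : ∀ k, 0 < ζp k) (hζ : ∀ k, ζ k ≤ ζp k)
    (hb : ∀ k, b3 (fun i => a (τ i)) x k ≤ ζ k + LN N ζ k)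
    {lam : ℝ} (hl0 : 0 ≤ lam)
    {hf : Fin 3 → ℝ × ℝ → ℝ} (hfm : ∀ l, Measurable (hf l)) (hf0 : ∀ l, ∀ t, 0 ≤ hf l t)
    (hfz : ∀ l, ∀ t, (¬ ∀ k, 0 ≤ mu (PN N) (vt t) k) → hf l t = 0)
    (hfx : ∀ t, (∀ k, 0 ≤ mu (PN N) (vt t) k) → ∀ k,
      lam * alP N ζp t * ζp k + ((hf 0 t + hf 1 t + hf 2 t) - hf k t) ≤ mu (PN N) (vt t) k)
    {κ : Fin 3 → ℝ × ℝ → ℝ} (hκm : ∀ l, Measurable (κ l)) (hκ0 : ∀ l, ∀ t ∈ Sim, 0 ≤ κ l t)
    {Ck : ℝ} (hκC : ∀ l, ∀ t ∈ Sim, κ l t ≤ Ck)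
    (hκr : ∀ t ∈ Sim, ∀ k, (κ 0 t + κ 1 t + κ 2 t) - κ k t ≤ rr N (vv t) k)
    (hβ0 : ∀ p, 0 ≤ β p) (hβ1 : ∀ p, β p ≤ 1)
    (hK : ∀ p, β p * ρ p ≤ (A / 2 + 1 / 8) * Pool.Agent.Helper55.Mass.Id (κ p))
    (hF0 : ∀ p, 0 < Pool.Agent.Helper55.Mass.Id (hf p))
    (hF : ∀ p, (1 - β p) * ρ p ≤ (A / 2 + 1 / 8) * Pool.Agent.Helper55.Mass.Id (hf p))
    {H r : Fin 3 → ℝ}
    (hH : ∀ j, H j + (N 0 j * H 0 + N 1 j * H 1 + N 2 j * H 2) = R j)
    (hr : ∀ k, Pool.Agent.Helper55.Mass.Id (fun t => rr N (vv t) k) ≤ r k)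
    {ω : ℝ × ℝ → ℝ} {C2 : ℝ}
    (hω : AEStronglyMeasurable ω (volume.restrict Dl)) (hωC : ∀ t ∈ Dl, |ω t| ≤ C2)
    {s : ℝ × ℝ → ℝ} (hs : ∀ t ∈ Dl, 0 ≤ s t)
    (own : ∀ p ∈ K, tx (fun i => a (τ i)) p ∈ Dl →
      Qv a (τ 0) p ≤ s (tx (fun i => a (τ i)) p))
    (hP : ∀ t ∈ Dl, ∀ q ∈ K,
      Yt (fun i => a (τ i)) t q / √(Helper33.MEI.mt t) - ‖a (τ 0) - q‖ ^ 2 ≤ s t →
      GM (A / 2 + 1 / 8) N ζ ζp lam hf κ β (MB σ a l τ) (fun p => aE σ a l (τ 0) (τ p.succ) - dE p) R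
          (fun k => S (τ k.succ)) (Qv a (τ 0) x) t
        + (1 - DM (A / 2 + 1 / 8) N ζ ζp lam hf κ β (MB σ a l τ)
          (fun j => 1 / qM (fun i => a (τ i)) (fun i j => z (τ i) (τ j)) j)
          (fun p => am σ a l (τ 0) (τ p.succ) - dm p) t) * ‖a (τ 0) - q‖ ^ 2 ≤
        Yt (fun i => a (τ i)) t q →
      (A / 2 + 1 / 8) * (GM (A / 2 + 1 / 8) N ζ ζp lam hf κ β (MB σ a l τ)
          (fun p => aE σ a l (τ 0) (τ p.succ) - dE p) R
          (fun k => S (τ k.succ)) (Qv a (τ 0) x) t / √(Helper33.MEI.mt t)) - ω t ≤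
        ff (A / 2 + 1 / 8)
          (Yt (fun i => a (τ i)) t q / √(Helper33.MEI.mt t) - ‖a (τ 0) - q‖ ^ 2)
          (‖a (τ 0) - q‖ ^ 2)) :
    LLs σ a l (τ 0) - (dE 0 + dE 1 + dE 2)
      + (A / 2 + 1 / 8) * (B0 * (H 0 + H 1 + H 2)
        - (r 0 * max (S (τ 1) + H 0) 0 + r 1 * max (S (τ 2) + H 1) 0
          + r 2 * max (S (τ 3) + H 2) 0)
        + lam * Pool.Agent.Helper55.Mass.Id (alP N ζp) *
          (Qv a (τ 0) x - (ζ 0 * R 0 + ζ 1 * R 1 + ζ 2 * R 2)))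
      - (ρ 0 * (pp ((1 - β 0) * R 1 - β 0 * S (τ 2)) + pp ((1 - β 0) * R 2 - β 0 * S (τ 3)))
        + ρ 1 * (pp ((1 - β 1) * R 0 - β 1 * S (τ 1)) + pp ((1 - β 1) * R 2 - β 1 * S (τ 3)))
        + ρ 2 * (pp ((1 - β 2) * R 0 - β 2 * S (τ 1)) + pp ((1 - β 2) * R 1 - β 2 * S (τ 2))))
      - (√2)⁻¹ * ∫ t in Dl, ω t * M3 t ≤ Wi a (τ 0) K σ A := by
  have h' := h.perm τ
  have v' := viol_perm v τ
  have hz' := hz.perm τ
  have hA' : 0 < A / 2 + 1 / 8 := by linarith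
  have hN : ∀ k m, 0 ≤ N k m := fun k m => by
    rw [hNd]
    exact NM_nonneg h' v' hz' k m
  have hd : ∀ k, N k k = 0 := fun k => by
    rw [hNd]
    exact NM_diag k
  have hcol : ∀ m, nc N m ≤ 9 / 10 := fun m => by
    rw [hNd]
    exact nc_le h' v' hz' m
  have hc : (9 / 10 : ℝ) < 1 := by norm_num
  have hgr := gram_of_dist h'.ha
  have hKp : ∀ l, 0 ≤ Pool.Agent.Helper55.Mass.Id (κ l) := fun l => by
    have h1 := (mul_nonneg (hβ0 l) (hρ l).le).trans (hK l)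
    by_contra hneg
    have := mul_neg_of_pos_of_neg hA' (not_le.1 hneg)
    linarith
  have hM0 : ∀ l' k, 0 ≤ MB σ a l τ l' k := fun l' k => MB_nonneg τ l' k
  have hMl : ∀ p, MB σ a l τ p p = 0 := fun p => MB_diag τ p
  have hMB : ∀ p k, MB σ a l τ p k ≤ ρ p := fun p k => by
    unfold MB
    split_ifs with e
    · exact (hρ p).le
    · exact hMρ p k e
  have i0 : ∀ l, 0 ≤ 1 / ((A / 2 + 1 / 8) * Pool.Agent.Helper55.Mass.Id (hf l)) :=
    fun l => by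
      have := mul_pos hA' (hF0 l)
      positivity
  have hCk : 0 ≤ Ck := by
    have hSim : ((0 : ℝ), (0 : ℝ)) ∈ Sim := ⟨le_rfl, le_rfl, by norm_num⟩
    exact (hκ0 0 _ hSim).trans (hκC 0 _ hSim)
  have key := face_genP (ι := Unit) h.pm h.ha h.hp h.hull (fun i q hq => h.ap hq i) τ hA hN hc
    hcol
    (al := fun _ => fun t => lam * alP N ζp t) (ζ := fun _ => ζ)
    (L := fun _ => Qv a (τ 0) x)
    (μx := fun _ => 1) (R := R) (S := fun k => S (τ k.succ))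
    (μ := fun j => 1 / qM (fun i => a (τ i)) (fun i j => z (τ i) (τ j)) j) (H := H) (r := r)
    (α := ash (hf) (fun l => Pool.Agent.Helper55.Mass.Id (hf l)) β
      (A / 2 + 1 / 8))
    (g := ast κ (fun l => Pool.Agent.Helper55.Mass.Id (κ l)) β (A / 2 + 1 / 8))
    (Ca := lam * (1 / ζp 0) +
      (1 / ((A / 2 + 1 / 8) * Pool.Agent.Helper55.Mass.Id (hf 0))
        + 1 / ((A / 2 + 1 / 8) * Pool.Agent.Helper55.Mass.Id (hf 1))
        + 1 / ((A / 2 + 1 / 8) * Pool.Agent.Helper55.Mass.Id (hf 2))))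
    (Cg := Ck / ((A / 2 + 1 / 8) * Pool.Agent.Helper55.Mass.Id (κ 0))
        + Ck / ((A / 2 + 1 / 8) * Pool.Agent.Helper55.Mass.Id (κ 1))
        + Ck / ((A / 2 + 1 / 8) * Pool.Agent.Helper55.Mass.Id (κ 2)))
    (M := MB σ a l τ) (E := fun p => aE σ a l (τ 0) (τ p.succ) - dE p)
    (sm := fun p => am σ a l (τ 0) (τ p.succ) - dm p) (β := β) (ω := ω) (s := s)
    (fun _ => alP_meas.const_mul _)
    (fun _ t _ => mul_nonneg hl0 (alP_nonneg hζp t))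
    (fun _ t ht => by
      have := mul_le_mul_of_nonneg_left (alP_bound hN hd hc hcol hζp ht) hl0
      have j0 := i0 0
      have j1 := i0 1
      have j2 := i0 2
      linarith)
    (fun l => ((hfm l).div_const _).const_mul _)
    (fun l t _ => ash_nonneg hf0 hA' hF0 hβ1 l t)
    (fun l t ht => by
      have j0 := i0 0
      have j1 := i0 1
      have j2 := i0 2
      have jz : 0 ≤ lam * (1 / ζp 0) := by
        have := hζp 0
        positivity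
      have hAF := mul_pos hA' (hF0 l)
      have g1 : hf l t / ((A / 2 + 1 / 8) * Pool.Agent.Helper55.Mass.Id (hf l)) ≤
          1 / ((A / 2 + 1 / 8) * Pool.Agent.Helper55.Mass.Id (hf l)) :=
        div_le_div_of_nonneg_right (hf_le_one hN hd hc hcol hζp hf0 hfz hfx hl0 l ht) hAF.le
      have g0 : 0 ≤ hf l t /
          ((A / 2 + 1 / 8) * Pool.Agent.Helper55.Mass.Id (hf l)) :=
        div_nonneg (hf0 l t) hAF.le
      have g2 : ash (hf) (fun l => Pool.Agent.Helper55.Mass.Id (hf l)) β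
          (A / 2 + 1 / 8) l t ≤
          1 / ((A / 2 + 1 / 8) * Pool.Agent.Helper55.Mass.Id (hf l)) := by
        have hb := hβ0 l
        have := mul_nonneg hb g0
        unfold ash
        linarith
      refine g2.trans ?_
      fin_cases l
      · show 1 / ((A / 2 + 1 / 8) * Pool.Agent.Helper55.Mass.Id (hf 0)) ≤ _
        linarith
      · show 1 / ((A / 2 + 1 / 8) * Pool.Agent.Helper55.Mass.Id (hf 1)) ≤ _
        linarith
      · show 1 / ((A / 2 + 1 / 8) * Pool.Agent.Helper55.Mass.Id (hf 2)) ≤ _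
        linarith)
    (fun l => ((hκm l).div_const _).const_mul _)
    (fun l t ht => ast_nonneg hκ0 hA' hβ0 hKp l ht)
    (fun l t ht => by
      have j : ∀ l, 0 ≤ Ck / ((A / 2 + 1 / 8) * Pool.Agent.Helper55.Mass.Id (κ l)) := fun l =>
        div_nonneg hCk (mul_nonneg hA'.le (hKp l))
      have j0 := j 0
      have j1 := j 1
      have j2 := j 2
      have hAF := mul_nonneg hA'.le (hKp l)
      have g1 : κ l t / ((A / 2 + 1 / 8) * Pool.Agent.Helper55.Mass.Id (κ l)) ≤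
          Ck / ((A / 2 + 1 / 8) * Pool.Agent.Helper55.Mass.Id (κ l)) :=
        div_le_div_of_nonneg_right (hκC l t ht) hAF
      have g0 : 0 ≤ κ l t / ((A / 2 + 1 / 8) * Pool.Agent.Helper55.Mass.Id (κ l)) :=
        div_nonneg (hκ0 l t ht) hAF
      have g2 : ast κ (fun l => Pool.Agent.Helper55.Mass.Id (κ l)) β (A / 2 + 1 / 8) l t ≤
          Ck / ((A / 2 + 1 / 8) * Pool.Agent.Helper55.Mass.Id (κ l)) := by
        have hb := mul_le_mul_of_nonneg_right (hβ1 l) g0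
        unfold ast
        linarith
      refine g2.trans ?_
      fin_cases l
      · show Ck / ((A / 2 + 1 / 8) * Pool.Agent.Helper55.Mass.Id (κ 0)) ≤ _
        linarith
      · show Ck / ((A / 2 + 1 / 8) * Pool.Agent.Helper55.Mass.Id (κ 1)) ≤ _
        linarith
      · show Ck / ((A / 2 + 1 / 8) * Pool.Agent.Helper55.Mass.Id (κ 2)) ≤ _
        linarith)
    hM0
    (fun t ht k => by
      simp only [Finset.univ_unique, Finset.sum_singleton]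
      exact ash_feas4 hN hd hc hcol hζp hζ hf0 hfz hfx hl0 hA' hF0 hβ1 hF hMl hMB ht k)
    (fun t ht k => ast_feas4 hκ0 hκr hA' hβ0 hKp hK hMl hMB ht k)
    (fun l => ash_Id hA' hF0 l)
    (fun l => ast_Id hA' (by
      rcases eq_or_lt_of_le (hβ0 l) with e | hb
      · exact Or.inl e.symm
      · right
        have h1 := mul_pos hb (hρ l)
        have h2 := lt_of_lt_of_le h1 (hK l)
        by_contra hneg
        have := mul_nonpos_of_nonneg_of_nonpos hA'.le (not_lt.1 hneg)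
        linarith))
    hH hr
    (fun q hq j => by
      refine load_low (hRd j) ?_
      rw [hNd]
      exact Pt_load hz' h' v' hq j)
    (fun q hq _ => apex_load hgr (h.hd x hx q hq) (h'.hp q hq) hb)
    (fun q hq p => by
      have h0 := arc_load h.ha hl h.cpt h.pm.mem h.hp h.hd τ hq p
      have h1 := load_drop2 h'.ha (h'.hp q hq) h0 (hδ p) ((MA_nonneg τ p p).trans (hδ p))
        (hdE p) (hdm p) (hdd p)
      exact h1)
    (fun q hq => ⟨v.le _ q hq, v.le _ q hq, v.le _ q hq⟩)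
    hω hωC hs own hP
  have hL := LLs_perm (σ := σ) (a := a) (l := l) τ
  simp only [Finset.univ_unique, Finset.sum_singleton] at key
  have e0 : Pool.Agent.Helper55.Mass.Id (fun t => lam * alP N ζp t) =
      lam * Pool.Agent.Helper55.Mass.Id (alP N ζp) :=
    Pool.Agent.Helper55.Mass.Id_const lam (alP N ζp)
  have e1 : τ (Fin.succ 0) = τ 1 := rfl
  have e2 : τ (Fin.succ 1) = τ 2 := rfl
  have e3 : τ (Fin.succ 2) = τ 3 := rfl
  rw [e0, e1, e2, e3] at key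
  have tr : ∀ p k, -(ρ p * pp ((1 - β p) * R k - β p * S (τ k.succ))) ≤
      β p * (MB σ a l τ p k * S (τ k.succ)) - (1 - β p) * (MB σ a l τ p k * R k) := by
    intro p k
    have h1 := mul_le_mul_of_nonneg_left (le_pp ((1 - β p) * R k - β p * S (τ k.succ)))
      (hM0 p k)
    have h2 := mul_le_mul_of_nonneg_right (hMB p k)
      (pp_nonneg ((1 - β p) * R k - β p * S (τ k.succ)))
    linarith
  have d0 := hMl 0
  have d1 := hMl 1
  have d2 := hMl 2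
  rw [d0, d1, d2] at key
  have t01 := tr 0 1
  have t02 := tr 0 2
  have t10 := tr 1 0
  have t12 := tr 1 2
  have t20 := tr 2 0
  have t21 := tr 2 1
  rw [e1] at t10 t20
  rw [e2] at t01 t21
  rw [e3] at t02 t12
  rw [hL]
  linarith only [key, t01, t02, t10, t12, t20, t21]

/-- `face_HGM` with weakened node loads -/
theorem face_HGMR [IsFiniteMeasure σ]
    (h : CN K σ a c) (v : Viol K a S) (hz : CV a K z)
    (τ : Equiv.Perm (Fin 4)) {A : ℝ} (hA : 7 / 2 ≤ A)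
    {l : Fin 3 → Bool → Bool → E3 × E3 → ℝ} (hl : Lok a l)
    {δ dE dm : Fin 3 → ℝ} (hδ : ∀ p, MA σ a l τ p p ≤ δ p) (hdE : ∀ p, 0 ≤ dE p)
    (hdm : ∀ p, 0 ≤ dm p) (hdd : ∀ p, δ p ^ 2 ≤ dE p * dm p)
    {ρ β : Fin 3 → ℝ} (hρ : ∀ p, 0 < ρ p)
    (hMρ : ∀ p k, k ≠ p → MA σ a l τ p k ≤ ρ p)
    {x : E3} (hx : x ∈ K)
    {N : Fin 3 → Fin 3 → ℝ} (hNd : N = NM (fun i => a (τ i)) (fun i j => z (τ i) (τ j)))
    {R : Fin 3 → ℝ} (hRd : ∀ k, R k ≤ RM (fun i => a (τ i)) (fun i j => z (τ i) (τ j)) k)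
    {ζ ζp : Fin 3 → ℝ} (hζp : ∀ k, 0 < ζp k) (hζ : ∀ k, ζ k ≤ ζp k)
    (hb : ∀ k, b3 (fun i => a (τ i)) x k ≤ ζ k + LN N ζ k)
    {lamM : ℝ} (hlM : 0 ≤ lamM)
    {hf : Fin 3 → ℝ × ℝ → ℝ} (hfm : ∀ l, Measurable (hf l)) (hf0 : ∀ l, ∀ t, 0 ≤ hf l t)
    (hfz : ∀ l, ∀ t, (¬ ∀ k, 0 ≤ mu (PN N) (vt t) k) → hf l t = 0)
    (hfx : ∀ t, (∀ k, 0 ≤ mu (PN N) (vt t) k) → ∀ k,
      lamM * alP N ζp t * ζp k + ((hf 0 t + hf 1 t + hf 2 t) - hf k t) ≤ mu (PN N) (vt t) k)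
    {κ : Fin 3 → ℝ × ℝ → ℝ} (hκm : ∀ l, Measurable (κ l)) (hκ0 : ∀ l, ∀ t ∈ Sim, 0 ≤ κ l t)
    {Ck : ℝ} (hκC : ∀ l, ∀ t ∈ Sim, κ l t ≤ Ck)
    (hκr : ∀ t ∈ Sim, ∀ k, (κ 0 t + κ 1 t + κ 2 t) - κ k t ≤ rr N (vv t) k)
    (hβ0 : ∀ p, 0 ≤ β p) (hβ1 : ∀ p, β p ≤ 1)
    (hK : ∀ p, β p * ρ p ≤ (A / 2 + 1 / 8) * Pool.Agent.Helper55.Mass.Id (κ p))
    (hF0 : ∀ p, 0 < Pool.Agent.Helper55.Mass.Id (hf p))
    (hF : ∀ p, (1 - β p) * ρ p ≤ (A / 2 + 1 / 8) * Pool.Agent.Helper55.Mass.Id (hf p))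
    {r : Fin 3 → ℝ} (hr : ∀ k, Pool.Agent.Helper55.Mass.Id (fun t => rr N (vv t) k) ≤ r k)
    {H : Fin 3 → ℝ} (hH : ∀ j, H j + (N 0 j * H 0 + N 1 j * H 1 + N 2 j * H 2) = R j)
    {g : ℝ} (hg0 : 0 ≤ g)
    (hg : g ≤ (A / 2 + 1 / 8) * (lamM * Pool.Agent.Helper55.Mass.Id (alP N ζp)))
    {cst : ℝ}
    (hW : ∀ lam, 0 ≤ lam → lam ≤ lamM → WCost a K τ (A / 2 + 1 / 8)
      (GM (A / 2 + 1 / 8) N ζ ζp lam hf κ β (MB σ a l τ) (fun p => aE σ a l (τ 0) (τ p.succ) - dE p) R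
        (fun k => S (τ k.succ)) (Qv a (τ 0) x))
      (DM (A / 2 + 1 / 8) N ζ ζp lam hf κ β (MB σ a l τ)
        (fun j => 1 / qM (fun i => a (τ i)) (fun i j => z (τ i) (τ j)) j)
        (fun p => am σ a l (τ 0) (τ p.succ) - dm p)) cst) :
    LLs σ a l (τ 0) - (dE 0 + dE 1 + dE 2)
      + (A / 2 + 1 / 8) * (B0 * (H 0 + H 1 + H 2)
        - (r 0 * max (S (τ 1) + H 0) 0 + r 1 * max (S (τ 2) + H 1) 0
          + r 2 * max (S (τ 3) + H 2) 0))
      + g * (Qv a (τ 0) x - (ζ 0 * R 0 + ζ 1 * R 1 + ζ 2 * R 2))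
      - (ρ 0 * (pp ((1 - β 0) * R 1 - β 0 * S (τ 2)) + pp ((1 - β 0) * R 2 - β 0 * S (τ 3)))
        + ρ 1 * (pp ((1 - β 1) * R 0 - β 1 * S (τ 1)) + pp ((1 - β 1) * R 2 - β 1 * S (τ 3)))
        + ρ 2 * (pp ((1 - β 2) * R 0 - β 2 * S (τ 1)) + pp ((1 - β 2) * R 1 - β 2 * S (τ 2))))
      - cst ≤ Wi a (τ 0) K σ A := by
  have hA' : 0 < A / 2 + 1 / 8 := by linarith
  have hI0 : 0 ≤ Pool.Agent.Helper55.Mass.Id (alP N ζp) := by
    unfold Pool.Agent.Helper55.Mass.Id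
    refine mul_nonneg (by positivity) (setIntegral_nonneg
      Pool.Agent.Helper55.Sx.Sim_meas fun t _ => ?_)
    exact div_nonneg (alP_nonneg hζp t) (by positivity)
  obtain ⟨lam, hl0, hl1, hlg⟩ : ∃ lam, 0 ≤ lam ∧ lam ≤ lamM ∧
      (A / 2 + 1 / 8) * (lam * Pool.Agent.Helper55.Mass.Id (alP N ζp)) = g := by
    rcases eq_or_lt_of_le hI0 with e | hpos
    · refine ⟨0, le_rfl, hlM, ?_⟩
      rw [← e, mul_zero, mul_zero] at hg
      rw [zero_mul, mul_zero]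
      exact le_antisymm hg0 hg
    · have hAI := mul_pos hA' hpos
      refine ⟨g / ((A / 2 + 1 / 8) * Pool.Agent.Helper55.Mass.Id (alP N ζp)),
        div_nonneg hg0 hAI.le, ?_, ?_⟩
      · rw [div_le_iff₀ hAI]
        linarith
      · rw [show (A / 2 + 1 / 8) * (g / ((A / 2 + 1 / 8) *
            Pool.Agent.Helper55.Mass.Id (alP N ζp)) * Pool.Agent.Helper55.Mass.Id (alP N ζp)) =
          g / ((A / 2 + 1 / 8) * Pool.Agent.Helper55.Mass.Id (alP N ζp)) *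
            ((A / 2 + 1 / 8) * Pool.Agent.Helper55.Mass.Id (alP N ζp)) by ring,
          div_mul_cancel₀ _ hAI.ne']
  obtain ⟨ω, s, C2, w1, w2, w3, w4, w5, w6⟩ := hW lam hl0 hl1
  have key := face_instMR h v hz τ hA hl hδ hdE hdm hdd hρ hMρ hx hNd hRd hζp hζ hb (lam := lam)
    hl0 hfm hf0 hfz (fun t ht k => by
      have h1 := hfx t ht k
      have h2 := mul_le_mul_of_nonneg_right
        (mul_le_mul_of_nonneg_right hl1 (alP_nonneg (N := N) hζp t)) (hζp k).le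
      linarith) hκm hκ0 hκC hκr hβ0 hβ1 hK hF0 hF hH hr w1 w2 w3 w4 w5
  have hk : (A / 2 + 1 / 8) * (lam * Pool.Agent.Helper55.Mass.Id (alP N ζp) *
      (Qv a (τ 0) x - (ζ 0 * R 0 + ζ 1 * R 1 + ζ 2 * R 2))) =
      g * (Qv a (τ 0) x - (ζ 0 * R 0 + ζ 1 * R 1 + ζ 2 * R 2)) := by
    rw [← hlg]
    ring
  linarith only [key, hk, w6]

/-- `face_KSM` with weakened node loads -/
theorem face_KSMR [IsFiniteMeasure σ]
    (h : CN K σ a c) (v : Viol K a S) (hz : CV a K z)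
    (τ : Equiv.Perm (Fin 4)) {A : ℝ} (hA : 7 / 2 ≤ A)
    {l : Fin 3 → Bool → Bool → E3 × E3 → ℝ} (hl : Lok a l)
    {δ dE dm : Fin 3 → ℝ} (hδ : ∀ p, MA σ a l τ p p ≤ δ p) (hdE : ∀ p, 0 ≤ dE p)
    (hdm : ∀ p, 0 ≤ dm p) (hdd : ∀ p, δ p ^ 2 ≤ dE p * dm p)
    {ρ β : Fin 3 → ℝ} (hρ : ∀ p, 0 < ρ p)
    (hMρ : ∀ p k, k ≠ p → MA σ a l τ p k ≤ ρ p)
    {x : E3} (hx : x ∈ K)
    {N : Fin 3 → Fin 3 → ℝ} (hNd : N = NM (fun i => a (τ i)) (fun i j => z (τ i) (τ j)))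
    {R : Fin 3 → ℝ} (hRd : ∀ k, R k ≤ RM (fun i => a (τ i)) (fun i j => z (τ i) (τ j)) k)
    {ζ ζp : Fin 3 → ℝ} (hζd : ζ = zc (fun i => a (τ i)) N x) (hζp : ∀ k, 0 < ζp k)
    (hζ : ∀ k, ζ k ≤ ζp k)
    {φ lamM : ℝ} (hφ0 : 0 < φ) (hlM : 0 ≤ lamM) (hlM1 : lamM ≤ 1 - φ)
    (hβ0 : ∀ p, 0 ≤ β p) (hβ1 : ∀ p, β p ≤ 1)
    (hK : ∀ p, β p * ρ p ≤
      (A / 2 + 1 / 8) * Pool.Agent.Helper55.Mass.Id (fun t => kap N (vv t) p))
    (hF : ∀ p, (1 - β p) * ρ p ≤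
      φ * ((A / 2 + 1 / 8) * Pool.Agent.Helper55.Mass.Id (flP (PN N) p)))
    {H : Fin 3 → ℝ} (hH : ∀ j, H j + (N 0 j * H 0 + N 1 j * H 1 + N 2 j * H 2) = R j)
    {g : ℝ} (hg0 : 0 ≤ g)
    (hg : g ≤ (A / 2 + 1 / 8) * (lamM * Pool.Agent.Helper55.Mass.Id (alP N ζp)))
    {cst : ℝ}
    (hW : ∀ lam, 0 ≤ lam → lam ≤ lamM → WCost a K τ (A / 2 + 1 / 8)
      (GM (A / 2 + 1 / 8) N ζ ζp lam (fun p t => φ * flP (PN N) p t)
        (fun p t => kap N (vv t) p) β (MB σ a l τ) (fun p => aE σ a l (τ 0) (τ p.succ) - dE p) R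
        (fun k => S (τ k.succ)) (Qv a (τ 0) x))
      (DM (A / 2 + 1 / 8) N ζ ζp lam (fun p t => φ * flP (PN N) p t)
        (fun p t => kap N (vv t) p) β (MB σ a l τ)
        (fun j => 1 / qM (fun i => a (τ i)) (fun i j => z (τ i) (τ j)) j)
        (fun p => am σ a l (τ 0) (τ p.succ) - dm p)) cst) :
    LLs σ a l (τ 0) - (dE 0 + dE 1 + dE 2)
      + (A / 2 + 1 / 8) * (B0 * (H 0 + H 1 + H 2)
        - (wc N 0 1 2 * max (S (τ 1) + H 0) 0 + wc N 1 0 2 * max (S (τ 2) + H 1) 0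
          + wc N 2 0 1 * max (S (τ 3) + H 2) 0))
      + g * (Qv a (τ 0) x - (ζ 0 * R 0 + ζ 1 * R 1 + ζ 2 * R 2))
      - (ρ 0 * (pp ((1 - β 0) * R 1 - β 0 * S (τ 2)) + pp ((1 - β 0) * R 2 - β 0 * S (τ 3)))
        + ρ 1 * (pp ((1 - β 1) * R 0 - β 1 * S (τ 1)) + pp ((1 - β 1) * R 2 - β 1 * S (τ 3)))
        + ρ 2 * (pp ((1 - β 2) * R 0 - β 2 * S (τ 1)) + pp ((1 - β 2) * R 1 - β 2 * S (τ 2))))
      - cst ≤ Wi a (τ 0) K σ A := by
  have h' := h.perm τ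
  have v' := viol_perm v τ
  have hz' := hz.perm τ
  have hA' : 0 < A / 2 + 1 / 8 := by linarith
  have hN : ∀ k m, 0 ≤ N k m := fun k m => by
    rw [hNd]
    exact NM_nonneg h' v' hz' k m
  have hd : ∀ k, N k k = 0 := fun k => by
    rw [hNd]
    exact NM_diag k
  have hcol : ∀ m, nc N m ≤ 9 / 10 := fun m => by
    rw [hNd]
    exact nc_le h' v' hz' m
  have hc : (9 / 10 : ℝ) < 1 := by norm_num
  have hb : ∀ k, b3 (fun i => a (τ i)) x k ≤ ζ k + LN N ζ k := fun k => by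
    rw [hζd]
    exact (mu_bal hN hd hc hcol (b3 (fun i => a (τ i)) x) k).ge
  have hF0 : ∀ p, 0 < Pool.Agent.Helper55.Mass.Id (flP (PN N) p) := fun p => by
    have h1 := Pool.Agent.Helper73.MEI.SideP.flN_mass hN hd hc hcol p
    have h2 := Pool.Agent.Helper55.ApexP.PN_det_pos hN hd hc hcol
    have h3 := Pool.Agent.Helper73.MEI.SideP.mbN_ge hN p
    refine lt_of_lt_of_le ?_ h1
    have h4 : 0 < Pool.Agent.Helper73.MEI.SideP.mbN N p := by linarith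
    positivity
  have eI : ∀ p, Pool.Agent.Helper55.Mass.Id (fun t => φ * flP (PN N) p t) =
      φ * Pool.Agent.Helper55.Mass.Id (flP (PN N) p) := fun p =>
    Pool.Agent.Helper55.Mass.Id_const φ _
  exact face_HGMR h v hz τ hA hl hδ hdE hdm hdd hρ hMρ hx hNd hRd hζp hζ hb
    (lamM := lamM) hlM
    (hf := fun p t => φ * flP (PN N) p t)
    (fun p => (flP_meas p).const_mul _)
    (fun p t => mul_nonneg hφ0.le (flP_nonneg p t))
    (fun p t ht => by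
      show φ * flP (PN N) p t = 0
      rw [flP_zero (by push Not at ht; exact ht) p, mul_zero])
    (fun t ht k => by
      obtain ⟨p0, p1, p2⟩ := flP_pair (P := PN N) ht
      have hx := ht k
      have ha := mul_le_mul_of_nonneg_left (alP_zeta hζp ht k) hlM
      have ha2 := mul_le_mul_of_nonneg_right hlM1 (ht k)
      have hfk : (flP (PN N) 0 t + flP (PN N) 1 t + flP (PN N) 2 t) - flP (PN N) k t ≤
          mu (PN N) (vt t) k := by
        fin_cases k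
        · simp only [Fin.zero_eta]
          linarith
        · simp only [Fin.mk_one]
          linarith
        · simp only [Fin.reduceFinMk]
          linarith
      have hfk' := mul_le_mul_of_nonneg_left hfk hφ0.le
      linarith)
    (κ := fun p t => kap N (vv t) p)
    (fun p => kap_meas hN hc hcol p)
    (fun p t ht => kap_nonneg hN hc hcol (fun k => vv_nonneg ht k) p)
    (Ck := 1) (fun p t ht => kap_le_one hN hc hcol ht p)
    (fun t ht k => by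
      have hbv := fun k => vv_nonneg ht k
      fin_cases k
      · have := kap_add hN hc hcol hbv (j := 1) (l := 2) (k := 0) (by decide) (by decide)
          (by decide)
        simp only [Fin.zero_eta]
        linarith
      · have := kap_add hN hc hcol hbv (j := 0) (l := 2) (k := 1) (by decide) (by decide)
          (by decide)
        simp only [Fin.mk_one]
        linarith
      · have := kap_add hN hc hcol hbv (j := 0) (l := 1) (k := 2) (by decide) (by decide)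
          (by decide)
        simp only [Fin.reduceFinMk]
        linarith)
    hβ0 hβ1 hK
    (fun p => by
      rw [eI]
      exact mul_pos hφ0 (hF0 p))
    (fun p => by
      rw [eI]
      have := hF p
      linarith)
    (r := fun k => match k with
      | 0 => wc N 0 1 2
      | 1 => wc N 1 0 2
      | 2 => wc N 2 0 1)
    (fun k => by
      fin_cases k
      · exact rr_mass hN hd hc hcol (by decide) (by decide) (by decide)
      · exact rr_mass hN hd hc hcol (by decide) (by decide) (by decide)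
      · exact rr_mass hN hd hc hcol (by decide) (by decide) (by decide))
    hH hg0 hg hW

/-- `face_instX` with weakened node loads -/
theorem face_instXR [IsFiniteMeasure σ] (h : CN K σ a c) (v : Viol K a S) (hz : CV a K z)
    (τ : Equiv.Perm (Fin 4)) {A : ℝ} (hA : 7 / 2 ≤ A)
    {l : Fin 3 → Bool → Bool → E3 × E3 → ℝ} (hl : Lok a l)
    {δ dE dm : Fin 3 → ℝ} (hδ : ∀ p, MA σ a l τ p p ≤ δ p) (hdE : ∀ p, 0 ≤ dE p)
    (hdm : ∀ p, 0 ≤ dm p) (hdd : ∀ p, δ p ^ 2 ≤ dE p * dm p)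
    {β : Fin 3 → ℝ} {ρ : Fin 3 → Fin 3 → ℝ}
    (hMρ : ∀ p k, k ≠ p → MA σ a l τ p k ≤ ρ p k)
    {ι ν : Type*} [Fintype ι] [Fintype ν] {x : ι → E3} (hx : ∀ m, x m ∈ K)
    {y : ν → E3} (hy : ∀ n, y n ∈ K)
    {N : Fin 3 → Fin 3 → ℝ} (hNd : N = NM (fun i => a (τ i)) (fun i j => z (τ i) (τ j)))
    {R : Fin 3 → ℝ} (hRd : ∀ k, R k ≤ RM (fun i => a (τ i)) (fun i j => z (τ i) (τ j)) k)
    {ζ : ι → Fin 3 → ℝ} (hb : ∀ m k, b3 (fun i => a (τ i)) (x m) k ≤ ζ m k + LN N (ζ m) k)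
    {Y : ν → Fin 3 → ℝ} (hY : ∀ n k, b3 (fun i => a (τ i)) (y n) k ≤ Y n k)
    {ap : ι → ℝ × ℝ → ℝ} (hapm : ∀ m, Measurable (ap m)) (hap0 : ∀ m, ∀ t ∈ Sim, 0 ≤ ap m t)
    {gr : ν → ℝ × ℝ → ℝ} (hrm : ∀ n, Measurable (gr n)) (hr0 : ∀ n, ∀ t ∈ Sim, 0 ≤ gr n t)
    {α g : Fin 3 → ℝ × ℝ → ℝ} (hαm : ∀ l, Measurable (α l)) (hα0 : ∀ l, ∀ t ∈ Sim, 0 ≤ α l t)
    (hgm : ∀ l, Measurable (g l)) (hg0 : ∀ l, ∀ t ∈ Sim, 0 ≤ g l t)
    {Ca : ℝ} (hapC : ∀ m, ∀ t ∈ Sim, ap m t ≤ Ca) (hαC : ∀ l, ∀ t ∈ Sim, α l t ≤ Ca)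
    (hrC : ∀ n, ∀ t ∈ Sim, gr n t ≤ Ca) (hgC : ∀ l, ∀ t ∈ Sim, g l t ≤ Ca)
    (hxx : ∀ t ∈ Sim, ∀ k, ∑ m, ap m t * ζ m k +
      ∑ l', α l' t * (if k = l' then 0 else ρ l' k) ≤ xx N (vv t) k)
    (hrr : ∀ t ∈ Sim, ∀ k, ∑ l', g l' t * (if k = l' then 0 else ρ l' k) +
      ∑ n, gr n t * Y n k ≤ rr N (vv t) k)
    (hαI : ∀ l, (A / 2 + 1 / 8) * Pool.Agent.Helper55.Mass.Id (α l) = 1 - β l)
    (hgI : ∀ l, (A / 2 + 1 / 8) * Pool.Agent.Helper55.Mass.Id (g l) = β l)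
    {H r : Fin 3 → ℝ}
    (hH : ∀ j, H j + (N 0 j * H 0 + N 1 j * H 1 + N 2 j * H 2) = R j)
    (hr : ∀ k, Pool.Agent.Helper55.Mass.Id (fun t => rr N (vv t) k) ≤ r k)
    {cst : ℝ}
    (hW : WCost a K τ (A / 2 + 1 / 8)
      (GX N ap ζ (fun m => Qv a (τ 0) (x m)) α g (MB σ a l τ)
        (fun p => aE σ a l (τ 0) (τ p.succ) - dE p) R (fun k => S (τ k.succ)) gr Y
        (fun n => Qv a (τ 0) (y n)))
      (DX N ap ζ (fun j => 1 / qM (fun i => a (τ i)) (fun i j => z (τ i) (τ j)) j)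
        (fun _ => 1) α g (MB σ a l τ) (fun p => am σ a l (τ 0) (τ p.succ) - dm p) gr Y
        (fun _ => 1)) cst) :
    LLs σ a l (τ 0) - (dE 0 + dE 1 + dE 2)
      + (A / 2 + 1 / 8) * (B0 * (H 0 + H 1 + H 2)
        - (r 0 * max (S (τ 1) + H 0) 0 + r 1 * max (S (τ 2) + H 1) 0
          + r 2 * max (S (τ 3) + H 2) 0)
        + ∑ m, (Qv a (τ 0) (x m) - (ζ m 0 * R 0 + ζ m 1 * R 1 + ζ m 2 * R 2)) *
          Pool.Agent.Helper55.Mass.Id (ap m)
        + ∑ n, (Qv a (τ 0) (y n) + (Y n 0 * S (τ 1) + Y n 1 * S (τ 2) + Y n 2 * S (τ 3))) *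
          Pool.Agent.Helper55.Mass.Id (gr n))
      - (ρ 0 1 * pp ((1 - β 0) * R 1 - β 0 * S (τ 2)) + ρ 0 2 * pp ((1 - β 0) * R 2 - β 0 * S (τ 3))
        + (ρ 1 0 * pp ((1 - β 1) * R 0 - β 1 * S (τ 1))
          + ρ 1 2 * pp ((1 - β 1) * R 2 - β 1 * S (τ 3)))
        + (ρ 2 0 * pp ((1 - β 2) * R 0 - β 2 * S (τ 1))
          + ρ 2 1 * pp ((1 - β 2) * R 1 - β 2 * S (τ 2))))
      - cst ≤ Wi a (τ 0) K σ A := by
  have h' := h.perm τ
  have v' := viol_perm v τ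
  have hz' := hz.perm τ
  have hA' : 0 < A / 2 + 1 / 8 := by linarith
  have hN : ∀ k m, 0 ≤ N k m := fun k m => by
    rw [hNd]
    exact NM_nonneg h' v' hz' k m
  have hcol : ∀ m, nc N m ≤ 9 / 10 := fun m => by
    rw [hNd]
    exact nc_le h' v' hz' m
  have hc : (9 / 10 : ℝ) < 1 := by norm_num
  have hgr := gram_of_dist h'.ha
  have hM0 : ∀ l' k, 0 ≤ MB σ a l τ l' k := fun l' k => MB_nonneg τ l' k
  have hMl : ∀ p, MB σ a l τ p p = 0 := fun p => MB_diag τ p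
  have hMB : ∀ p k, MB σ a l τ p k ≤ (if k = p then 0 else ρ p k) := fun p k => by
    unfold MB
    split_ifs with e
    · exact le_rfl
    · exact hMρ p k e
  obtain ⟨ω, s, C2, w1, w2, w3, w4, w5, w6⟩ := hW
  have key := face_genX (ι := ι) (ν := ν) h.pm h.ha h.hp h.hull (fun i q hq => h.ap hq i) τ hA hN
    hc hcol (al := ap) (ζ := ζ) (L := fun m => Qv a (τ 0) (x m))
    (μx := fun _ => 1) (R := R) (S := fun k => S (τ k.succ))
    (μ := fun j => 1 / qM (fun i => a (τ i)) (fun i j => z (τ i) (τ j)) j) (H := H) (r := r)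
    (α := α) (g := g) (Ca := Ca) (Cg := Ca) (gr := gr) (Y := Y)
    (Er := fun n => Qv a (τ 0) (y n)) (sr := fun _ => 1)
    (M := MB σ a l τ) (E := fun p => aE σ a l (τ 0) (τ p.succ) - dE p)
    (sm := fun p => am σ a l (τ 0) (τ p.succ) - dm p) (β := β) (ω := ω) (s := s)
    hapm hap0 hapC hαm hα0 hαC hgm hg0 hgC hrm hr0 hrC hM0
    (fun t ht k => by
      refine le_trans ?_ (hxx t ht k)
      have : ∑ l', α l' t * MB σ a l τ l' k ≤
          ∑ l', α l' t * (if k = l' then 0 else ρ l' k) :=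
        Finset.sum_le_sum fun l' _ => mul_le_mul_of_nonneg_left (hMB l' k) (hα0 l' t ht)
      linarith)
    (fun t ht k => by
      refine le_trans ?_ (hrr t ht k)
      have : ∑ l', g l' t * MB σ a l τ l' k ≤
          ∑ l', g l' t * (if k = l' then 0 else ρ l' k) :=
        Finset.sum_le_sum fun l' _ => mul_le_mul_of_nonneg_left (hMB l' k) (hg0 l' t ht)
      linarith)
    hαI hgI hH hr
    (fun q hq j => by
      refine load_low (hRd j) ?_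
      rw [hNd]
      exact Pt_load hz' h' v' hq j)
    (fun q hq m => apex_load hgr (h.hd _ (hx m) q hq) (h'.hp q hq) (hb m))
    (fun q hq p => by
      have h0 := arc_load h.ha hl h.cpt h.pm.mem h.hp h.hd τ hq p
      exact load_drop2 h'.ha (h'.hp q hq) h0 (hδ p) ((MA_nonneg τ p p).trans (hδ p))
        (hdE p) (hdm p) (hdd p))
    (fun q hq n => Load.pt hgr (h.hd _ (hy n) q hq) (h'.hp q hq) (hY n))
    (fun q hq => ⟨v.le _ q hq, v.le _ q hq, v.le _ q hq⟩)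
    w1 w2 w3 w4 w5
  have hL := LLs_perm (σ := σ) (a := a) (l := l) τ
  have e1 : τ (Fin.succ 0) = τ 1 := rfl
  have e2 : τ (Fin.succ 1) = τ 2 := rfl
  have e3 : τ (Fin.succ 2) = τ 3 := rfl
  rw [e1, e2, e3] at key
  have tr : ∀ p k, k ≠ p → -(ρ p k * pp ((1 - β p) * R k - β p * S (τ k.succ))) ≤
      β p * (MB σ a l τ p k * S (τ k.succ)) - (1 - β p) * (MB σ a l τ p k * R k) := by
    intro p k hkp
    have h0 := hMB p k
    rw [if_neg hkp] at h0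
    have h1 := mul_le_mul_of_nonneg_left (le_pp ((1 - β p) * R k - β p * S (τ k.succ)))
      (hM0 p k)
    have h2 := mul_le_mul_of_nonneg_right h0
      (pp_nonneg ((1 - β p) * R k - β p * S (τ k.succ)))
    linarith
  have d0 := hMl 0
  have d1 := hMl 1
  have d2 := hMl 2
  rw [d0, d1, d2] at key
  have t01 := tr 0 1 (by decide)
  have t02 := tr 0 2 (by decide)
  have t10 := tr 1 0 (by decide)
  have t12 := tr 1 2 (by decide)
  have t20 := tr 2 0 (by decide)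
  have t21 := tr 2 1 (by decide)
  rw [e1] at t10 t20
  rw [e2] at t01 t21
  rw [e3] at t02 t12
  rw [hL]
  linarith only [key, t01, t02, t10, t12, t20, t21, w6]

end Helper46.MEI
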